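import Pool.Agent.VMX.StmtsF

/-!
Squad VMX, row UNX: vectors almost below a vertex are near its multiples.
-/

set_option autoImplicit false

open Matrix Filter Topology

namespace Pool.Agent.VMX.H17

open Pool.Agent.PFS Pool.Agent.PFJ Pool.Agent.NBT Pool.Agent.VMX

/-- the claim for a fixed index -/
theorem unx_i {n k : ℕ} {C : Set (V n)} {Γ : Subgroup (GL (Fin n) ℝ)} (hK : KT3.HK C Γ (k + 1))
    {τ : ℝ} (hτ : 0 < τ) (i : Fin (k + 1)) :
    ∃ θ : ℝ, 0 < θ ∧ ∀ w : Fin (k + 1) → V n, IsPES C Γ w →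
      ∀ q ∈ closure C, (2 : ℝ) • w i + θ • (∑ m, w m) - q ∈ closure C →
      ∃ c : ℝ, 0 ≤ c ∧ τ • (∑ m, w m) - (q - c • w i) ∈ closure C ∧
        τ • (∑ m, w m) + (q - c • w i) ∈ closure C := by
  by_contra hcon
  push Not at hcon
  have hθ : ∀ j : ℕ, 0 < 1 / ((j : ℝ) + 1) := fun j => by positivity
  choose w hw q hq hle hno using fun j : ℕ => hcon (1 / ((j : ℝ) + 1)) (hθ j)
  have hCC := hK.toCC
  have hElm := fun j => H60.elm n C Γ hCC (Fin (k + 1)) (w j) (hw j)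
  have hHull : ∀ j, ∑ m, w j m ∈ Hull C Γ := fun j => by
    have h := (hElm j).2.2.2.1 (fun _ => 1) fun _ => one_pos
    simpa using h
  obtain ⟨φ, γ, t, p, hφ, hγ, ht, hp, hlim⟩ := H60.zom n C Γ hCC (fun j => ∑ m, w j m)
    (fun j => (hw j).1.sum_mem) hHull
  obtain ⟨ψ, W, hψ, hWl, hWs, hWP⟩ := H37.lpsF n C Γ hCC (Fin (k + 1)) (by
      rw [Fintype.card_fin]
      have := hK.three
      omega) (fun m i => t m • act (γ m) (w (φ m) i)) p
    (fun m => (hElm (φ m)).2.1 (γ m) (hγ m) (t m) (ht m)) hp (by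
      refine hlim.congr fun m => ?_
      rw [CC.act_sum, Finset.smul_sum])
  -- the images of the vectors `q`
  have hq' : ∀ m, t m • act (γ m) (q (φ m)) ∈ closure C := fun m =>
    (hCC.sact_cl_iff (hγ m) (ht m)).2 (hq _)
  have hup : ∀ m, ((2 : ℝ) • (t m • act (γ m) (w (φ m) i)) +
      (1 / ((φ m : ℝ) + 1)) • (∑ l, t m • act (γ m) (w (φ m) l))) -
      t m • act (γ m) (q (φ m)) ∈ closure C := by
    intro m
    have h := (hCC.sact_cl_iff (hγ m) (ht m)).2 (hle (φ m))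
    have e : t m • act (γ m) ((2 : ℝ) • w (φ m) i + (1 / ((φ m : ℝ) + 1)) • (∑ l, w (φ m) l) -
        q (φ m)) = ((2 : ℝ) • (t m • act (γ m) (w (φ m) i)) +
        (1 / ((φ m : ℝ) + 1)) • (∑ l, t m • act (γ m) (w (φ m) l))) -
        t m • act (γ m) (q (φ m)) := by
      rw [CC.act_sub, CC.act_add, CC.act_smul, CC.act_smul, smul_sub, smul_add, CC.act_sum,
        smul_comm (t m) (2 : ℝ), smul_comm (t m) (1 / ((φ m : ℝ) + 1)), Finset.smul_sum]
    rwa [e] at h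
  have hφψ := hφ.tendsto_atTop.comp hψ.tendsto_atTop
  have hθl : Tendsto (fun m => 1 / ((φ (ψ m) : ℝ) + 1)) atTop (𝓝 0) :=
    tendsto_one_div_add_atTop_nhds_zero_nat.comp hφψ
  have hsl : Tendsto (fun m => ∑ l, t (ψ m) • act (γ (ψ m)) (w (φ (ψ m)) l)) atTop
      (𝓝 (∑ l, W l)) := tendsto_finsetSum _ fun l _ => hWl l
  have hul : Tendsto (fun m => (2 : ℝ) • (t (ψ m) • act (γ (ψ m)) (w (φ (ψ m)) i)) +
      (1 / ((φ (ψ m) : ℝ) + 1)) • (∑ l, t (ψ m) • act (γ (ψ m)) (w (φ (ψ m)) l))) atTop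
      (𝓝 ((2 : ℝ) • W i + (0 : ℝ) • ∑ l, W l)) :=
    ((hWl i).const_smul 2).add (hθl.smul hsl)
  rw [zero_smul, add_zero] at hul
  obtain ⟨B, hB0, hBn⟩ := hCC.normal
  have hbd : ∀ᶠ m in atTop, t (ψ m) • act (γ (ψ m)) (q (φ (ψ m))) ∈
      Metric.closedBall (0 : V n) (B * (‖(2 : ℝ) • W i‖ + 1)) := by
    filter_upwards [hul.norm.eventually_lt_const (lt_add_one ‖(2 : ℝ) • W i‖)] with m hm
    rw [mem_closedBall_zero_iff]
    exact (hBn _ _ (hq' (ψ m)) (hup (ψ m))).trans (mul_le_mul_of_nonneg_left hm.le hB0.le)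
  obtain ⟨q0, -, χ, hχ, hql⟩ := tendsto_subseq_of_frequently_bounded
    (Metric.isBounded_closedBall (x := (0 : V n)) (r := B * (‖(2 : ℝ) • W i‖ + 1)))
    hbd.frequently
  have hq0 : q0 ∈ closure C :=
    isClosed_closure.mem_of_tendsto hql (Eventually.of_forall fun m => hq' _)
  have hq1 : (2 : ℝ) • W i - q0 ∈ closure C :=
    isClosed_closure.mem_of_tendsto ((hul.comp hχ.tendsto_atTop).sub hql)
      (Eventually.of_forall fun m => hup (ψ (χ m)))
  obtain ⟨c0, hc0⟩ := exv n C Γ hCC (k + 1) (by have := hK.three; omega) hK.maxc W hWP i q0 hq0 2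
    hq1
  -- the coefficient may be taken to be nonnegative
  obtain ⟨c, hc, hqc⟩ : ∃ c : ℝ, 0 ≤ c ∧ q0 = c • W i := by
    rcases le_or_gt 0 c0 with h | h
    · exact ⟨c0, h, hc0⟩
    · refine ⟨0, le_rfl, ?_⟩
      have h1 : W i ∈ closure C := hWP.1.cl i
      have h2 : -W i ∈ closure C := by
        have h3 := hCC.cl_smul hq0 (t := (-c0)⁻¹) (inv_nonneg.2 (by linarith))
        rw [hc0, smul_smul] at h3
        have h4 : (-c0)⁻¹ * c0 = -1 := by
          have : c0 ≠ 0 := h.ne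
          field_simp
        rwa [h4, neg_one_smul] at h3
      have h3 := hCC.salient _ h1 h2
      rw [hc0, h3, smul_zero, smul_zero]
  have hdl : Tendsto (fun m => t (ψ (χ m)) • act (γ (ψ (χ m))) (q (φ (ψ (χ m)))) -
      c • (t (ψ (χ m)) • act (γ (ψ (χ m))) (w (φ (ψ (χ m))) i))) atTop (𝓝 (q0 - c • W i)) :=
    hql.sub (((hWl i).comp hχ.tendsto_atTop).const_smul c)
  rw [hqc, sub_self] at hdl
  have hsl2 := hsl.comp hχ.tendsto_atTop
  have hpC : τ • (∑ l, W l) ∈ C := hCC.smul _ hWP.1.sum_mem τ hτ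
  have e1 := (hsl2.const_smul τ).sub hdl
  have e2 := (hsl2.const_smul τ).add hdl
  rw [sub_zero] at e1
  rw [add_zero] at e2
  obtain ⟨m, hm1, hm2⟩ := ((e1.eventually (hCC.isOpen.mem_nhds hpC)).and
    (e2.eventually (hCC.isOpen.mem_nhds hpC))).exists
  have f1 : τ • (∑ l, w (φ (ψ (χ m))) l) - (q (φ (ψ (χ m))) - c • w (φ (ψ (χ m))) i) ∈
      closure C := by
    apply subset_closure
    rw [← hCC.sact_mem_iff (hγ (ψ (χ m))) (ht (ψ (χ m)))]
    have e : t (ψ (χ m)) • act (γ (ψ (χ m))) (τ • (∑ l, w (φ (ψ (χ m))) l) -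
        (q (φ (ψ (χ m))) - c • w (φ (ψ (χ m))) i)) =
        τ • (∑ l, t (ψ (χ m)) • act (γ (ψ (χ m))) (w (φ (ψ (χ m))) l)) -
        (t (ψ (χ m)) • act (γ (ψ (χ m))) (q (φ (ψ (χ m)))) -
        c • (t (ψ (χ m)) • act (γ (ψ (χ m))) (w (φ (ψ (χ m))) i))) := by
      rw [CC.act_sub, CC.act_sub, CC.act_smul, CC.act_smul, smul_sub, smul_sub, CC.act_sum,
        smul_comm (t (ψ (χ m))) τ, smul_comm (t (ψ (χ m))) c, Finset.smul_sum]
    rw [e]
    exact hm1
  have f2 : τ • (∑ l, w (φ (ψ (χ m))) l) + (q (φ (ψ (χ m))) - c • w (φ (ψ (χ m))) i) ∈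
      closure C := by
    apply subset_closure
    rw [← hCC.sact_mem_iff (hγ (ψ (χ m))) (ht (ψ (χ m)))]
    have e : t (ψ (χ m)) • act (γ (ψ (χ m))) (τ • (∑ l, w (φ (ψ (χ m))) l) +
        (q (φ (ψ (χ m))) - c • w (φ (ψ (χ m))) i)) =
        τ • (∑ l, t (ψ (χ m)) • act (γ (ψ (χ m))) (w (φ (ψ (χ m))) l)) +
        (t (ψ (χ m)) • act (γ (ψ (χ m))) (q (φ (ψ (χ m)))) -
        c • (t (ψ (χ m)) • act (γ (ψ (χ m))) (w (φ (ψ (χ m))) i))) := by
      rw [CC.act_add, CC.act_sub, CC.act_smul, CC.act_smul, smul_add, smul_sub, CC.act_sum,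
        smul_comm (t (ψ (χ m))) τ, smul_comm (t (ψ (χ m))) c, Finset.smul_sum]
    rw [e]
    exact hm2
  exact hno _ c hc f1 f2

theorem unx : UnxStmt := by
  intro n k C Γ hK τ hτ
  choose θ hθ h using fun i => unx_i hK hτ i
  refine ⟨Finset.univ.inf' Finset.univ_nonempty θ, ?_, ?_⟩
  · rw [Finset.lt_inf'_iff]
    exact fun i _ => hθ i
  · intro w hw i q hq hle
    refine h i w hw q hq ?_
    have hmin : Finset.univ.inf' Finset.univ_nonempty θ ≤ θ i :=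
      Finset.inf'_le θ (Finset.mem_univ i)
    have e : (2 : ℝ) • w i + θ i • (∑ m, w m) - q =
        ((2 : ℝ) • w i + (Finset.univ.inf' Finset.univ_nonempty θ) • (∑ m, w m) - q) +
        (θ i - Finset.univ.inf' Finset.univ_nonempty θ) • (∑ m, w m) := by
      rw [sub_smul]; abel
    rw [e]
    exact hK.cl_add hle (hK.cl_smul (subset_closure hw.1.sum_mem) (by linarith))

end Pool.Agent.VMX.H17
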