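import Pool.Agent.VMX.StmtsB

/-!
Squad VMX, row ZBX: boxes along all reachable points of the zoom limit.
-/

set_option autoImplicit false

open Matrix Filter Topology

namespace Pool.Agent.VMX.H17

open Pool.Agent.PFS Pool.Agent.PFJ Pool.Agent.NBT Pool.Agent.VMX

variable {n K : ℕ}

theorem fS_ins {r : ℕ} (a b : V n) (q : Fin r → V n) (c : Fin (r + 2) → ℝ) :
    ∑ i, c i • (Fin.cons a (Fin.cons b q) : Fin (r + 2) → V n) i =
      c 0 • a + (c 1 • b + ∑ l : Fin r, c l.succ.succ • q l) := by
  rw [Fin.sum_univ_succ, Fin.sum_univ_succ]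
  rfl

/-- the sum of a tuple with the vertex `p` replaced -/
theorem sum_upd {p j : Fin K} (hpj : p ≠ j) (z : Fin K → V n) (x : V n) :
    ∑ i, Function.update z p x i = x + z j + fS z {p, j}ᶜ := by
  rw [← fS_add_compl (Function.update z p x) {p, j}, fS_pair _ hpj,
    fS_update z p x (I := {p, j}ᶜ) (by simp), Function.update_self,
    Function.update_of_ne hpj.symm]

theorem sum_coef {p j : Fin K} (hpj : p ≠ j) (z : Fin K → V n) (x : V n) (a b c : ℝ) :
    ∑ i, (if i = p then a else if i = j then b else c) • Function.update z p x i =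
      a • x + b • z j + c • fS z {p, j}ᶜ := by
  classical
  rw [← Finset.sum_add_sum_compl {p, j}, Finset.sum_pair hpj]
  have h1 : ∑ i ∈ ({p, j} : Finset (Fin K))ᶜ,
      (if i = p then a else if i = j then b else c) • Function.update z p x i =
      c • fS z {p, j}ᶜ := by
    unfold fS
    rw [Finset.smul_sum]
    refine Finset.sum_congr rfl fun i hi => ?_
    simp only [Finset.mem_compl, Finset.mem_insert, Finset.mem_singleton, not_or] at hi
    rw [if_neg hi.1, if_neg hi.2, Function.update_of_ne hi.1]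
  rw [h1, if_pos rfl, if_neg hpj.symm, if_pos rfl, Function.update_self,
    Function.update_of_ne hpj.symm]

/-- the data of the proof along one sequence -/
structure Dt (C : Set (V n)) (Γ Γ₀ : Subgroup (GL (Fin n) ℝ)) (F : (Fin K → V n) → Prop)
    (p j : Fin K) (r : ℕ) (z Z : Fin K → V n) (h : Fin r → V n) (X : V n)
    (s θ : ℕ → ℝ) (g : ℕ → GL (Fin n) ℝ) (x : ℕ → V n) (q : ℕ → Fin r → V n)
    (H : Fin r → V n) : Prop where
  fX : F (Function.update Z p X)
  gm : ∀ k, g k ∈ Γ₀
  sp : ∀ k, 0 < s k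
  th : Tendsto θ atTop atTop
  lx : Tendsto (fun k => (s k * Real.exp (θ k)) • act (g k) (x k)) atTop (𝓝 X)
  lq : ∀ l, Tendsto (fun k => (s k * Real.exp (θ k)) • act (g k) (q k l)) atTop (𝓝 (H l))
  li : ∀ i, Tendsto (fun k => s k • act (g k) ((if i ∈ ({p, j} : Finset (Fin K)) then
    Real.exp (θ k) else 1) • z i)) atTop (𝓝 (Z i))
  lR : Tendsto (fun k => s k • act (g k) (fS z {p, j}ᶜ)) atTop (𝓝 (fS Z {p, j}ᶜ))
  x0 : Tendsto x atTop (𝓝 (z p))
  q0 : ∀ l, Tendsto (fun k => q k l) atTop (𝓝 (h l))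
  fx : ∀ k, F (Function.update z p (x k))
  tq : ∀ k l, Tm C F p j (Function.update z p (x k)) (q k l)
  bq : ∃ M : ℝ, 0 < M ∧ ∀ᶠ k in atTop, ∀ l, M • (x k + z j) - q k l ∈ closure C
  bx : ∀ ε : ℝ, 0 < ε → ∀ N : ℝ, ∃ T : ℝ, ∀ᶠ k in atTop, Zs C F p j ε N T z (x k)

section Core

variable {C : Set (V n)} {Γ Γ₀ : Subgroup (GL (Fin n) ℝ)} {F : (Fin K → V n) → Prop}
  {p j : Fin K} {J : Finset (Fin K)} {c : Fin K → ℕ}
  {r : ℕ} {z Z : Fin K → V n} {h : Fin r → V n} {X : V n}
  {s θ : ℕ → ℝ} {g : ℕ → GL (Fin n) ℝ} {x : ℕ → V n} {q : ℕ → Fin r → V n}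
  {H : Fin r → V n}

/-- the scaled group element -/
noncomputable def hk (s θ : ℕ → ℝ) (g : ℕ → GL (Fin n) ℝ) (k : ℕ) (v : V n) : V n :=
  (s k * Real.exp (θ k)) • act (g k) v

theorem hk_add (k : ℕ) (v w : V n) : hk s θ g k (v + w) = hk s θ g k v + hk s θ g k w := by
  unfold hk
  rw [CC.act_add, smul_add]

theorem hk_sub (k : ℕ) (v w : V n) : hk s θ g k (v - w) = hk s θ g k v - hk s θ g k w := by
  unfold hk
  rw [CC.act_sub, smul_sub]

theorem hk_smul (k : ℕ) (a : ℝ) (v : V n) : hk s θ g k (a • v) = a • hk s θ g k v := by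
  unfold hk
  rw [CC.act_smul, smul_comm]

theorem hk_sum {ι : Type} [Fintype ι] (k : ℕ) (a : ι → ℝ) (v : ι → V n) :
    hk s θ g k (∑ i, a i • v i) = ∑ i, a i • hk s θ g k (v i) := by
  unfold hk
  rw [CC.act_sum, Finset.smul_sum]
  refine Finset.sum_congr rfl fun i _ => ?_
  rw [CC.act_smul, smul_comm]

theorem hk_rho (k : ℕ) (v : V n) : hk s θ g k (Real.exp (-θ k) • v) = s k • act (g k) v := by
  unfold hk
  rw [CC.act_smul, smul_smul, mul_assoc, ← Real.exp_add, add_neg_cancel, Real.exp_zero, mul_one]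

variable (hS : SL C Γ Γ₀ p J c F) (hD : Dt C Γ Γ₀ F p j r z Z h X s θ g x q H)
include hS hD

theorem hk_mem (k : ℕ) {v : V n} : hk s θ g k v ∈ C ↔ v ∈ C :=
  hS.cc.sact_mem_iff (hS.sub (hD.gm k)) (mul_pos (hD.sp k) (Real.exp_pos _))

theorem hk_cl (k : ℕ) {v : V n} : hk s θ g k v ∈ closure C ↔ v ∈ closure C :=
  hS.cc.sact_cl_iff (hS.sub (hD.gm k)) (mul_pos (hD.sp k) (Real.exp_pos _))

theorem evC {y : ℕ → V n} {y0 : V n} (hy : Tendsto (fun k => hk s θ g k (y k)) atTop (𝓝 y0))
    (h0 : y0 ∈ C) : ∀ᶠ k in atTop, y k ∈ C := by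
  filter_upwards [hy.eventually (hS.cc.isOpen.mem_nhds h0)] with k hk'
  exact (hk_mem hS hD k).1 hk'

theorem limCl {y : ℕ → V n} {y0 : V n} (hy : Tendsto (fun k => hk s θ g k (y k)) atTop (𝓝 y0))
    (h0 : ∀ᶠ k in atTop, y k ∈ closure C) : y0 ∈ closure C := by
  refine isClosed_closure.mem_of_tendsto hy ?_
  filter_upwards [h0] with k hk'
  exact (hk_cl hS hD k).2 hk'

omit hS in
theorem lrho : Tendsto (fun k => Real.exp (-θ k)) atTop (𝓝 0) :=
  Real.tendsto_exp_neg_atTop_nhds_zero.comp hD.th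

omit hS in
theorem lj : Tendsto (fun k => hk s θ g k (z j)) atTop (𝓝 (Z j)) := by
  refine (hD.li j).congr fun k => ?_
  rw [if_pos (by simp)]
  unfold hk
  rw [CC.act_smul, smul_smul]

omit hS in
theorem lE (i : Fin (r + 2)) : Tendsto (fun k => hk s θ g k
    ((Fin.cons (x k) (Fin.cons (z j) (q k)) : Fin (r + 2) → V n) i)) atTop
    (𝓝 ((Fin.cons X (Fin.cons (Z j) H) : Fin (r + 2) → V n) i)) := by
  refine Fin.cases ?_ (fun i => ?_) i
  · exact hD.lx
  · refine Fin.cases ?_ (fun l => ?_) i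
    · exact lj hD
    · exact hD.lq l

omit hS in
theorem l0 (i : Fin (r + 2)) : Tendsto (fun k =>
    (Fin.cons (x k) (Fin.cons (z j) (q k)) : Fin (r + 2) → V n) i) atTop
    (𝓝 ((Fin.cons (z p) (Fin.cons (z j) h) : Fin (r + 2) → V n) i)) := by
  refine Fin.cases ?_ (fun i => ?_) i
  · exact hD.x0
  · refine Fin.cases ?_ (fun l => ?_) i
    · exact tendsto_const_nhds
    · exact hD.q0 l

omit hS in
/-- the limit of the combinations -/
theorem lcomb (a : Fin (r + 2) → ℝ) : Tendsto (fun k => hk s θ g k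
    (∑ i, a i • (Fin.cons (x k) (Fin.cons (z j) (q k)) : Fin (r + 2) → V n) i)) atTop
    (𝓝 (∑ i, a i • (Fin.cons X (Fin.cons (Z j) H) : Fin (r + 2) → V n) i)) := by
  have h1 : Tendsto (fun k => ∑ i, a i • hk s θ g k
      ((Fin.cons (x k) (Fin.cons (z j) (q k)) : Fin (r + 2) → V n) i)) atTop
      (𝓝 (∑ i, a i • (Fin.cons X (Fin.cons (Z j) H) : Fin (r + 2) → V n) i)) :=
    tendsto_finsetSum _ fun i _ => (lE hD i).const_smul (a i)
  exact h1.congr fun k => (hk_sum k a _).symm

omit hS in
/-- the limit of `x_k + z_j + exp (-θ k) R` -/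
theorem lP : Tendsto (fun k => hk s θ g k (x k + z j + Real.exp (-θ k) • fS z {p, j}ᶜ)) atTop
    (𝓝 (X + Z j + fS Z {p, j}ᶜ)) := by
  refine ((hD.lx.add (lj hD)).add hD.lR).congr fun k => ?_
  rw [hk_add, hk_add, hk_rho]
  rfl

omit hD in
theorem fmem (hpj : p ≠ j) {W : Fin K → V n} {w : V n} (hw : F (Function.update W p w)) :
    w + W j + fS W {p, j}ᶜ ∈ C := by
  rw [← sum_upd hpj]
  exact (hS.pes _ hw).1.sum_mem

/-- independence of the limits -/
theorem indep (hpj : p ≠ j)
    (hli : LinearIndependent ℝ (Fin.cons (z p) (Fin.cons (z j) h) : Fin (r + 2) → V n)) :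
    LinearIndependent ℝ (Fin.cons X (Fin.cons (Z j) H) : Fin (r + 2) → V n) := by
  have key : ∀ a : Fin (r + 2) → ℝ,
      ∑ i, a i • (Fin.cons X (Fin.cons (Z j) H) : Fin (r + 2) → V n) i = 0 →
      ∑ i, a i • (Fin.cons (z p) (Fin.cons (z j) h) : Fin (r + 2) → V n) i ∈ closure C := by
    intro a ha
    refine cl_of_eps (f := z p + z j) fun ε hε => ?_
    have h1 : Tendsto (fun k => hk s θ g k
        (∑ i, a i • (Fin.cons (x k) (Fin.cons (z j) (q k)) : Fin (r + 2) → V n) i +
          ε • (x k + z j + Real.exp (-θ k) • fS z {p, j}ᶜ))) atTop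
        (𝓝 (0 + ε • (X + Z j + fS Z {p, j}ᶜ))) := by
      rw [← ha]
      refine ((lcomb hD a).add ((lP hD).const_smul ε)).congr fun k => ?_
      simp only [hk_add, hk_smul]
    have h2 := evC hS hD h1 (by
      rw [zero_add]
      exact hS.cc.smul _ (fmem hS hpj hD.fX) ε hε)
    have h3 : Tendsto (fun k =>
        (∑ i, a i • (Fin.cons (x k) (Fin.cons (z j) (q k)) : Fin (r + 2) → V n) i +
          ε • (x k + z j + Real.exp (-θ k) • fS z {p, j}ᶜ))) atTop
        (𝓝 (∑ i, a i • (Fin.cons (z p) (Fin.cons (z j) h) : Fin (r + 2) → V n) i +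
          ε • (z p + z j + (0 : ℝ) • fS z {p, j}ᶜ))) :=
      (tendsto_finsetSum _ fun i _ => (l0 hD i).const_smul (a i)).add
        (((hD.x0.add tendsto_const_nhds).add ((lrho hD).smul_const _)).const_smul ε)
    rw [zero_smul, add_zero] at h3
    refine isClosed_closure.mem_of_tendsto h3 ?_
    filter_upwards [h2] with k h4
    exact subset_closure h4
  rw [Fintype.linearIndependent_iff]
  intro a ha
  have h1 := key a ha
  have h2 := key (fun i => -a i) (by
    simp only [neg_smul, Finset.sum_neg_distrib, ha, neg_zero])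
  simp only [neg_smul, Finset.sum_neg_distrib] at h2
  exact Fintype.linearIndependent_iff.1 hli a (hS.cc.salient _ h1 h2)

/-- the limits `H l` are moves of `Z[X]` -/
theorem move (h5 : FmcStmt) (hpj : p ≠ j)
    (hli : LinearIndependent ℝ (Fin.cons (z p) (Fin.cons (z j) h) : Fin (r + 2) → V n))
    (l : Fin r) : Tm C F p j (Function.update Z p X) (H l) := by
  have hli2 := indep hS hD hpj hli
  have hsum := fmem hS hpj hD.fX
  have hPZ := hS.pes _ hD.fX
  have hXc : X ∈ closure C := by
    have := hPZ.1.cl p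
    rwa [Function.update_self] at this
  have hZc : Z j ∈ closure C := by
    have := hPZ.1.cl j
    rwa [Function.update_of_ne hpj.symm] at this
  have hqc : ∀ k, q k l ∈ closure C := fun k => by
    have := (hS.pes _ (hD.tq k l).1).1.cl p
    rwa [Function.update_self] at this
  have hHc : H l ∈ closure C :=
    limCl hS hD (y := fun k => q k l) (hD.lq l) (Eventually.of_forall fun k => hqc k)
  obtain ⟨M, hM, hbq⟩ := hD.bq
  have hDm : Dm C (H l) (X + Z j) := by
    refine ⟨M, hM, ?_⟩
    refine limCl hS hD (y := fun k => M • (x k + z j) - q k l) ?_ ?_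
    · have h1 := ((hD.lx.add (lj hD)).const_smul M).sub (hD.lq l)
      refine h1.congr fun k => ?_
      rw [hk_sub, hk_smul, hk_add]
      rfl
    · filter_upwards [hbq] with k hk'
      exact hk' l
  have hZ0 : Z j ≠ 0 := hli2.ne_zero (Fin.succ 0)
  have hnm : ∀ a : ℝ, H l ≠ a • Z j := by
    have e3 : (Fin.succ 0 : Fin (r + 2)) ≠ l.succ.succ := fun e =>
      (Fin.succ_ne_zero l).symm (Fin.succ_injective _ e)
    have h1 := hli2.comp ![Fin.succ 0, l.succ.succ] (by
      intro a b hab
      fin_cases a <;> fin_cases b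
      · rfl
      · exact (e3 hab).elim
      · exact (e3.symm hab).elim
      · rfl)
    have h2 : (Fin.cons X (Fin.cons (Z j) H) : Fin (r + 2) → V n) ∘ ![Fin.succ 0, l.succ.succ] =
        ![Z j, H l] := by
      funext i
      fin_cases i <;> rfl
    rw [h2, LinearIndependent.pair_iff' hZ0] at h1
    exact fun a ha => h1 a ha.symm
  have hH0 : H l ≠ 0 := fun h0 => hnm 0 (by rw [h0, zero_smul])
  have hnC : H l + fS Z {p, j}ᶜ ∉ C := by
    intro hC
    have h1 : Tendsto (fun k => hk s θ g k (q k l + Real.exp (-θ k) • fS z {p, j}ᶜ)) atTop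
        (𝓝 (H l + fS Z {p, j}ᶜ)) := by
      refine ((hD.lq l).add hD.lR).congr fun k => ?_
      rw [hk_add, hk_rho]
      rfl
    obtain ⟨k, hk'⟩ := (evC hS hD h1 hC).exists
    have hP := (hS.pes _ (hD.tq k l).1).1
    rw [Function.update_idem] at hP
    have h2 := hP.bd (fun i => if i = p then 1 else if i = j then 0 else Real.exp (-θ k))
      (fun i => by
        split_ifs
        · exact zero_le_one
        · exact le_rfl
        · exact (Real.exp_pos _).le) ⟨j, by rw [if_neg hpj.symm, if_pos rfl]⟩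
    rw [sum_coef hpj, one_smul, zero_smul, add_zero] at h2
    exact h2 hk'
  have hP2 : IsPES C Γ (Function.update Z p (H l)) := by
    have h1 := (h5 n C Γ hS.cc K hS.three hS.maxc (Function.update Z p X) p hPZ).2.2.2.2.1
      j (H l) hpj.symm hHc hH0 (by
        rw [Function.update_self, Function.update_of_ne hpj.symm]
        exact hDm) (by
        rw [Function.update_of_ne hpj.symm]
        exact hnm) (by
        rw [fS_update Z p X (I := {p, j}ᶜ) (by simp)]
        exact hnC)
    rwa [Function.update_idem] at h1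
  refine ⟨?_, ?_⟩
  · rw [Function.update_idem]
    refine hS.cld (fun k i => s k • act (g k)
      ((if i ∈ ({p, j} : Finset (Fin K)) then Real.exp (θ k) else 1) •
        Function.update z p (q k l) i)) _ (fun k => ?_) (fun i => ?_) ?_
    · have h1 : F (Function.update z p (q k l)) := by
        have := (hD.tq k l).1
        rwa [Function.update_idem] at this
      have h2 := hS.scl _ h1 (fun i => if i ∈ ({p, j} : Finset (Fin K)) then Real.exp (θ k) else 1)
        (fun i => by
          split_ifs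
          · exact Real.exp_pos _
          · exact one_pos)
      have h3 := hS.inv _ h2 (g k) (hD.gm k)
      exact hS.scl _ h3 (fun _ => s k) (fun _ => hD.sp k)
    · by_cases hi : i = p
      · subst hi
        rw [Function.update_self]
        refine (hD.lq l).congr fun k => ?_
        rw [Function.update_self, if_pos (by simp), CC.act_smul, smul_smul]
      · rw [Function.update_of_ne hi]
        refine (hD.li i).congr fun k => ?_
        rw [Function.update_of_ne hi]
    · exact hP2.1.sum_mem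
  · rw [Function.update_self, Function.update_of_ne hpj.symm]
    exact hDm

/-- the slice at `Z[X]` -/
theorem slice (h5 : FmcStmt) (hpj : p ≠ j)
    (hli : LinearIndependent ℝ (Fin.cons (z p) (Fin.cons (z j) h) : Fin (r + 2) → V n))
    (hmx : ∀ z', F z' → Module.finrank ℝ (Es C F p j z') ≤ r + 2) :
    Submodule.span ℝ (Set.range (Fin.cons X (Fin.cons (Z j) H) : Fin (r + 2) → V n)) =
      Es C F p j (Function.update Z p X) ∧
    Module.finrank ℝ (Es C F p j (Function.update Z p X)) = r + 2 := by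
  have hli2 := indep hS hD hpj hli
  have hPZ := hS.pes _ hD.fX
  have hXc : X ∈ closure C := by
    have := hPZ.1.cl p
    rwa [Function.update_self] at this
  have hZc : Z j ∈ closure C := by
    have := hPZ.1.cl j
    rwa [Function.update_of_ne hpj.symm] at this
  have hle : Submodule.span ℝ (Set.range (Fin.cons X (Fin.cons (Z j) H) : Fin (r + 2) → V n)) ≤
      Es C F p j (Function.update Z p X) := by
    rw [Submodule.span_le]
    rintro _ ⟨i, rfl⟩
    refine Fin.cases ?_ (fun i => ?_) i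
    · refine Submodule.subset_span (Or.inr ⟨?_, 1, one_pos, ?_⟩)
      · rw [Function.update_idem]
        exact hD.fX
      · rw [Function.update_self, Function.update_of_ne hpj.symm, one_smul]
        have h1 : X + Z j - (Fin.cons X (Fin.cons (Z j) H) : Fin (r + 2) → V n) 0 = Z j := by
          rw [Fin.cons_zero]; abel
        rw [h1]
        exact hZc
    · refine Fin.cases ?_ (fun l => ?_) i
      · refine Submodule.subset_span (Or.inl ?_)
        rw [Set.mem_singleton_iff, Function.update_of_ne hpj.symm]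
        rfl
      · exact Submodule.subset_span (Or.inr (move hS hD h5 hpj hli l))
  have h1 : Module.finrank ℝ (Submodule.span ℝ
      (Set.range (Fin.cons X (Fin.cons (Z j) H) : Fin (r + 2) → V n))) = r + 2 := by
    rw [finrank_span_eq_card hli2, Fintype.card_fin]
  have h2 := Submodule.finrank_mono hle
  have h3 := hmx _ hD.fX
  exact ⟨Submodule.eq_of_le_of_finrank_eq hle (by omega), by omega⟩

/-- the box at `Z[X]` -/
theorem boxX (h5 : FmcStmt) (hpj : p ≠ j)
    (hli : LinearIndependent ℝ (Fin.cons (z p) (Fin.cons (z j) h) : Fin (r + 2) → V n))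
    (hmx : ∀ z', F z' → Module.finrank ℝ (Es C F p j z') ≤ r + 2) :
    IB C (Function.update Z p X) {p, j} (Es C F p j (Function.update Z p X)) := by
  obtain ⟨hE, -⟩ := slice hS hD h5 hpj hli hmx
  have hPZ := hS.pes _ hD.fX
  have hsum := fmem hS hpj hD.fX
  have hXc : X ∈ closure C := by
    have := hPZ.1.cl p
    rwa [Function.update_self] at this
  have hZc : Z j ∈ closure C := by
    have := hPZ.1.cl j
    rwa [Function.update_of_ne hpj.symm] at this
  refine ⟨fun i hi => ?_, fun v hv hvR => ?_⟩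
  · rw [← hE]
    rw [Finset.mem_insert, Finset.mem_singleton] at hi
    rcases hi with rfl | rfl
    · rw [Function.update_self]
      exact Submodule.subset_span ⟨0, rfl⟩
    · rw [Function.update_of_ne hpj.symm]
      exact Submodule.subset_span ⟨Fin.succ 0, rfl⟩
  rw [fS_update Z p X (I := {p, j}ᶜ) (by simp)] at hvR
  rw [← hE, Submodule.mem_span_range_iff_exists_fun] at hv
  obtain ⟨a, ha⟩ := hv
  -- the approximations
  set w : ℕ → V n := fun k =>
    ∑ i, a i • (Fin.cons (x k) (Fin.cons (z j) (q k)) : Fin (r + 2) → V n) i with hw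
  have hwl : Tendsto (fun k => hk s θ g k (w k)) atTop (𝓝 v) := by
    rw [← ha]
    exact lcomb hD a
  have hxc : ∀ k, x k ∈ closure C := fun k => by
    have := (hS.pes _ (hD.fx k)).1.cl p
    rwa [Function.update_self] at this
  have hzc : z j ∈ closure C := by
    have := (hS.pes _ (hD.fx 0)).1.cl j
    rwa [Function.update_of_ne hpj.symm] at this
  have hRc : fS z {p, j}ᶜ ∈ closure C := by
    have := fS_cl hS.cc.toPCone (fun i => (hS.pes _ (hD.fx 0)).1.cl i) ({p, j}ᶜ)
    rwa [fS_update z p _ (I := {p, j}ᶜ) (by simp)] at this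
  have hpc : ∀ k, x k + z j ∈ closure C := fun k => hS.cc.cl_add (hxc k) hzc
  have hwE : ∀ k, w k ∈ Es C F p j (Function.update z p (x k)) := by
    intro k
    refine Submodule.sum_mem _ fun i _ => Submodule.smul_mem _ _ ?_
    refine Fin.cases ?_ (fun i => ?_) i
    · refine Submodule.subset_span (Or.inr ⟨?_, 1, one_pos, ?_⟩)
      · rw [Function.update_idem]
        exact hD.fx k
      · rw [Function.update_self, Function.update_of_ne hpj.symm, one_smul]
        have h1 : x k + z j - (Fin.cons (x k) (Fin.cons (z j) (q k)) : Fin (r + 2) → V n) 0 =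
            z j := by
          rw [Fin.cons_zero]; abel
        rw [h1]
        exact hzc
    · refine Fin.cases ?_ (fun l => ?_) i
      · refine Submodule.subset_span (Or.inl ?_)
        rw [Set.mem_singleton_iff, Function.update_of_ne hpj.symm]
        rfl
      · exact Submodule.subset_span (Or.inr (hD.tq k l))
  have hpE : ∀ k, x k + z j ∈ Es C F p j (Function.update z p (x k)) := by
    intro k
    refine Submodule.add_mem _ (Submodule.subset_span (Or.inr ⟨?_, 1, one_pos, ?_⟩))
      (Submodule.subset_span (Or.inl ?_))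
    · rw [Function.update_idem]
      exact hD.fx k
    · rw [Function.update_self, Function.update_of_ne hpj.symm, one_smul, add_sub_cancel_left]
      exact hzc
    · rw [Set.mem_singleton_iff, Function.update_of_ne hpj.symm]
  -- the claim for small ε
  have key : ∀ ε : ℝ, 0 < ε → ε ≤ 1 → v + (3 * ε) • (X + Z j) ∈ closure C := by
    intro ε hε hε1
    obtain ⟨N, hN, hNv⟩ := hS.cc.absorb hsum v
    obtain ⟨T, hT⟩ := hD.bx ε hε (N + 1)
    have hA := evC hS hD (y := fun k => w k + Real.exp (-θ k) • fS z {p, j}ᶜ +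
        ε • (x k + z j + Real.exp (-θ k) • fS z {p, j}ᶜ))
        (y0 := v + fS Z {p, j}ᶜ + ε • (X + Z j + fS Z {p, j}ᶜ)) (by
      refine ((hwl.add hD.lR).add ((lP hD).const_smul ε)).congr fun k => ?_
      rw [← hk_rho (θ := θ)]
      simp only [hk_add, hk_smul]) (by
      rw [add_comm]
      exact hS.cc.add_cl (hS.cc.smul _ hsum ε hε) hvR)
    have hB := evC hS hD (y := fun k => N • (x k + z j + Real.exp (-θ k) • fS z {p, j}ᶜ) - w k)
        (y0 := N • (X + Z j + fS Z {p, j}ᶜ) - v) (by
      refine (((lP hD).const_smul N).sub hwl).congr fun k => ?_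
      simp only [hk_add, hk_smul, hk_sub]) hNv
    refine limCl hS hD (y := fun k => w k + (3 * ε) • (x k + z j)) ?_ ?_
    · refine (hwl.add ((hD.lx.add (lj hD)).const_smul (3 * ε))).congr fun k => ?_
      simp only [hk_add, hk_smul]
      rfl
    filter_upwards [hA, hB, hT, hD.th.eventually_ge_atTop T] with k hAk hBk hTk hθk
    have h1e : (0 : ℝ) < 1 + ε := by linarith
    have hρ : Real.exp (-θ k) ≤ Real.exp (-T) := Real.exp_le_exp.2 (by linarith)
    have hρ0 := Real.exp_pos (-θ k)
    set ρ := Real.exp (-θ k) with hρd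
    set τ := Real.exp (-T) with hτd
    have hdR : (τ - ρ) • fS z {p, j}ᶜ ∈ closure C := hS.cc.cl_smul hRc (by linarith)
    have hu := hTk ((1 + ε)⁻¹ • (w k + ε • (x k + z j)))
      (Submodule.smul_mem _ _ (Submodule.add_mem _ (hwE k) (Submodule.smul_mem _ _ (hpE k))))
      (by
        have h1 : (1 + ε)⁻¹ • (w k + ε • (x k + z j)) + τ • fS z {p, j}ᶜ =
            (1 + ε)⁻¹ • (w k + ρ • fS z {p, j}ᶜ + ε • (x k + z j + ρ • fS z {p, j}ᶜ)) +
              (τ - ρ) • fS z {p, j}ᶜ := by
          ext i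
          simp only [Pi.add_apply, Pi.smul_apply, smul_eq_mul]
          field_simp
          ring
        rw [h1]
        exact hS.cc.cl_add (hS.cc.cl_smul (subset_closure hAk) (inv_pos.2 h1e).le) hdR)
      (by
        have h1 : (N + 1) • (x k + z j + τ • fS z {p, j}ᶜ) -
            (1 + ε)⁻¹ • (w k + ε • (x k + z j)) =
            (1 + ε)⁻¹ • (N • (x k + z j + ρ • fS z {p, j}ᶜ) - w k) +
              (((N + 1) - (1 + ε)⁻¹ * (N + ε)) • (x k + z j) +
                (((N + 1) - (1 + ε)⁻¹ * N) • (ρ • fS z {p, j}ᶜ) +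
                  (N + 1) • ((τ - ρ) • fS z {p, j}ᶜ))) := by
          ext i
          simp only [Pi.add_apply, Pi.smul_apply, Pi.sub_apply, smul_eq_mul]
          field_simp
          ring
        have h2 : (1 + ε)⁻¹ ≤ 1 := inv_le_one_of_one_le₀ (by linarith)
        have h3 : (1 + ε)⁻¹ * (N + ε) ≤ N + ε := by
          have : 0 ≤ N + ε := by linarith
          nlinarith
        have h4 : (1 + ε)⁻¹ * N ≤ N := by nlinarith
        rw [h1]
        refine hS.cc.cl_add (hS.cc.cl_smul (subset_closure hBk) (inv_pos.2 h1e).le)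
          (hS.cc.cl_add (hS.cc.cl_smul (hpc k) (by linarith))
            (hS.cc.cl_add (hS.cc.cl_smul (hS.cc.cl_smul hRc hρ0.le) (by linarith))
              (hS.cc.cl_smul hdR (by linarith)))))
    have h5 : w k + (3 * ε) • (x k + z j) =
        (1 + ε) • ((1 + ε)⁻¹ • (w k + ε • (x k + z j)) + ε • (x k + z j)) +
          (ε - ε * ε) • (x k + z j) := by
      ext i
      simp only [Pi.add_apply, Pi.smul_apply, smul_eq_mul]
      field_simp
      ring
    have h6 : ε * ε ≤ ε := by nlinarith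
    show w k + (3 * ε) • (x k + z j) ∈ closure C
    rw [h5]
    exact hS.cc.cl_add (hS.cc.cl_smul hu h1e.le) (hS.cc.cl_smul (hpc k) (by linarith))
  refine cl_of_eps (f := (3 : ℝ) • (X + Z j)) fun ε hε => ?_
  have h1 := key (min ε 1) (lt_min hε one_pos) (min_le_right _ _)
  have h2 : v + ε • ((3 : ℝ) • (X + Z j)) = (v + (3 * min ε 1) • (X + Z j)) +
      (3 * (ε - min ε 1)) • (X + Z j) := by
    ext i
    simp only [Pi.add_apply, Pi.smul_apply, smul_eq_mul]
    ring
  rw [h2]
  refine hS.cc.cl_add h1 (hS.cc.cl_smul (hS.cc.cl_add hXc hZc) ?_)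
  have := min_le_left ε 1
  linarith

end Core

theorem zbx (h1 : ZpfStmt) (h2 : ZptStmt) (h3 : ZfeStmt) (h4 : FmcStmt) (h5 : CesStmt)
    (h6 : AlnStmt) (h7 : ZapStmt) : ZbxStmt := by
  intro n C Γ Γ₀ K p J c F hS j r z h M hjp hjJ hB
  have hpj : p ≠ j := hjp.symm
  have hI : ({p, j} : Finset (Fin K)).Nonempty := ⟨p, by simp⟩
  have hIc : ({p, j} : Finset (Fin K))ᶜ.Nonempty := by
    rw [← Finset.card_pos, Finset.card_compl, Finset.card_pair hpj, Fintype.card_fin]
    have := hS.three
    omega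
  obtain ⟨φ, g, s, T, L, hφ, hg, hZp, hFZ⟩ := h3 n C Γ Γ₀ hS.cc K F hS.toFAM z hB.fz {p, j} hI hIc
    (fun k => (k : ℝ)) tendsto_natCast_atTop_atTop
  refine ⟨zW z {p, j} T L, hFZ, fun X hX => ?_⟩
  obtain ⟨hZpes, hZlim, -, hZc, -⟩ := h2 n C Γ hS.cc K z (hS.pes _ hB.fz) {p, j} hI hIc _ g s T L hZp
  obtain ⟨φ', x, κ, hφ', hκ, hx, hxl, hxX⟩ := h7 n C Γ Γ₀ K p J c F hS z hB.fz j hjp hjJ
    (fun k => ((φ k : ℕ) : ℝ)) g s T L hg hZp X hX
  set Z := zW z {p, j} T L with hZd
  have hFX : F (Function.update Z p X) := ((h6 n C Γ Γ₀ K p J c F hS Z hFZ X).1 hX).1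
  have hFκ : F (Function.update Z p (κ • X)) := by
    have h8 := hS.scl _ hFX (fun i => if i = p then κ else 1) (fun i => by
      split_ifs
      · exact hκ
      · exact one_pos)
    have h9 : (fun i => (if i = p then κ else 1) • Function.update Z p X i) =
        Function.update Z p (κ • X) := by
      funext i
      by_cases hi : i = p
      · subst hi
        rw [if_pos rfl, Function.update_self, Function.update_self]
      · rw [if_neg hi, one_smul, Function.update_of_ne hi, Function.update_of_ne hi]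
    rwa [h9] at h8
  obtain ⟨q, hq, hq0, hqM⟩ := hB.tp x hx hxl
  -- boundedness
  obtain ⟨B, hB0, hBn⟩ := hS.cc.normal
  have hsp : ∀ k, 0 < s k * Real.exp ((φ k : ℕ) : ℝ) := fun k =>
    mul_pos (hZp.pos k) (Real.exp_pos _)
  have hzj : Tendsto (fun k => (s (φ' k) * Real.exp ((φ (φ' k) : ℕ) : ℝ)) • act (g (φ' k)) (z j))
      atTop (𝓝 (Z j)) := by
    refine ((hZlim j).comp hφ'.tendsto_atTop).congr fun k => ?_
    show s (φ' k) • act (g (φ' k)) ((if j ∈ ({p, j} : Finset (Fin K)) then
      Real.exp ((φ (φ' k) : ℕ) : ℝ) else 1) • z j) = _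
    rw [if_pos (by simp), CC.act_smul, smul_smul]
  have hMb : ∃ M' : ℝ, 0 < M' ∧ ∀ᶠ k in atTop, ∀ l, M' • (x k + z j) - q k l ∈ closure C := by
    refine ⟨max M 1, by positivity, ?_⟩
    have hx1 : ∀ k, x k + z j ∈ closure C := fun k => by
      have hFk := ((h6 n C Γ Γ₀ K p J c F hS z hB.fz (x k)).1 (hx k)).1
      have e1 := (hS.pes _ hFk).1.cl p
      have e2 := (hS.pes _ hFk).1.cl j
      rw [Function.update_self] at e1
      rw [Function.update_of_ne hpj.symm] at e2
      exact hS.cc.cl_add e1 e2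
    filter_upwards [hqM] with k hk' l
    have e3 : (max M 1) • (x k + z j) - q k l = (M • (x k + z j) - q k l) +
        (max M 1 - M) • (x k + z j) := by
      rw [sub_smul]; abel
    rw [e3]
    exact hS.cc.cl_add (hk' l) (hS.cc.cl_smul (hx1 k) (by
      have := le_max_left M 1
      linarith))
  obtain ⟨M', hM', hqM'⟩ := hMb
  have hPl : Tendsto (fun k => M' • ((s (φ' k) * Real.exp ((φ (φ' k) : ℕ) : ℝ)) •
      act (g (φ' k)) (x k) + (s (φ' k) * Real.exp ((φ (φ' k) : ℕ) : ℝ)) •
      act (g (φ' k)) (z j))) atTop (𝓝 (M' • (κ • X + Z j))) := (hxX.add hzj).const_smul M'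
  have hbd : ∀ᶠ k in atTop, (fun l => (s (φ' k) * Real.exp ((φ (φ' k) : ℕ) : ℝ)) •
      act (g (φ' k)) (q k l)) ∈ Metric.closedBall (0 : Fin r → V n)
        (B * (‖M' • (κ • X + Z j)‖ + 1)) := by
    have e1 : ∀ᶠ k in atTop, ‖M' • ((s (φ' k) * Real.exp ((φ (φ' k) : ℕ) : ℝ)) •
      act (g (φ' k)) (x k) + (s (φ' k) * Real.exp ((φ (φ' k) : ℕ) : ℝ)) •
      act (g (φ' k)) (z j))‖ < ‖M' • (κ • X + Z j)‖ + 1 :=
      hPl.norm.eventually_lt_const (by linarith)
    filter_upwards [e1, hqM'] with k hk1 hk2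
    rw [mem_closedBall_zero_iff, pi_norm_le_iff_of_nonneg (by positivity)]
    intro l
    have hql : q k l ∈ closure C := by
      have := (hS.pes _ (hq k l).1).1.cl p
      rwa [Function.update_self] at this
    refine (hBn _ (M' • ((s (φ' k) * Real.exp ((φ (φ' k) : ℕ) : ℝ)) •
      act (g (φ' k)) (x k) + (s (φ' k) * Real.exp ((φ (φ' k) : ℕ) : ℝ)) •
      act (g (φ' k)) (z j))) ?_ ?_).trans (mul_le_mul_of_nonneg_left hk1.le hB0.le)
    · exact (hS.cc.sact_cl_iff (hZp.mem _) (hsp _)).2 hql
    · have e2 : M' • ((s (φ' k) * Real.exp ((φ (φ' k) : ℕ) : ℝ)) •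
          act (g (φ' k)) (x k) + (s (φ' k) * Real.exp ((φ (φ' k) : ℕ) : ℝ)) •
          act (g (φ' k)) (z j)) - (s (φ' k) * Real.exp ((φ (φ' k) : ℕ) : ℝ)) •
          act (g (φ' k)) (q k l) = (s (φ' k) * Real.exp ((φ (φ' k) : ℕ) : ℝ)) •
          act (g (φ' k)) (M' • (x k + z j) - q k l) := by
        rw [CC.act_sub, CC.act_smul, CC.act_add, smul_sub, smul_comm, ← smul_add]
      rw [e2]
      exact (hS.cc.sact_cl_iff (hZp.mem _) (hsp _)).2 (hk2 l)
  obtain ⟨H, -, ψ, hψ, hψl⟩ := tendsto_subseq_of_frequently_bounded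
    (Metric.isBounded_closedBall (x := (0 : Fin r → V n))
      (r := B * (‖M' • (κ • X + Z j)‖ + 1))) hbd.frequently
  rw [tendsto_pi_nhds] at hψl
  have hψt := hψ.tendsto_atTop
  have hφt := hφ'.tendsto_atTop
  have hD : Dt C Γ Γ₀ F p j r z Z h (κ • X) (fun k => s (φ' (ψ k)))
      (fun k => ((φ (φ' (ψ k)) : ℕ) : ℝ)) (fun k => g (φ' (ψ k))) (fun k => x (ψ k))
      (fun k => q (ψ k)) H :=
    { fX := hFκ
      gm := fun k => hg _
      sp := fun k => hZp.pos _
      th := hZp.inf.comp (hφt.comp hψt)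
      lx := hxX.comp hψt
      lq := fun l => hψl l
      li := fun i => (hZlim i).comp (hφt.comp hψt)
      lR := by
        have e1 := hZp.limT (fun _ => fS z {p, j}ᶜ) (fS z {p, j}ᶜ) tendsto_const_nhds
        rw [← hZc] at e1
        exact e1.comp (hφt.comp hψt)
      x0 := hxl.comp hψt
      q0 := fun l => (hq0 l).comp hψt
      fx := fun k => ((h6 n C Γ Γ₀ K p J c F hS z hB.fz (x (ψ k))).1 (hx (ψ k))).1
      tq := fun k l => hq (ψ k) l
      bq := ⟨M', hM', hψt.eventually hqM'⟩
      bx := fun ε hε N => by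
        obtain ⟨T', hT'⟩ := hB.bx ε hε N
        exact ⟨T', hψt.eventually (hT' x hx hxl)⟩ }
  obtain ⟨hE, hfr⟩ := slice hS hD h4 hpj hB.li hB.mx
  have hbox := boxX hS hD h4 hpj hB.li hB.mx
  -- transfer from `κ • X` to `X`
  have hXc : X ∈ closure C := by
    have := (hS.pes _ hFX).1.cl p
    rwa [Function.update_self] at this
  have hZjc : Z j ∈ closure C := by
    have := (hS.pes _ hFX).1.cl j
    rwa [Function.update_of_ne hpj.symm] at this
  have hEs : Es C F p j (Function.update Z p X) = Es C F p j (Function.update Z p (κ • X)) := by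
    have e1 : ∀ y, Tm C F p j (Function.update Z p X) y ↔
        Tm C F p j (Function.update Z p (κ • X)) y := by
      intro y
      unfold Tm
      rw [Function.update_idem, Function.update_idem, Function.update_self, Function.update_self,
        Function.update_of_ne hpj.symm, Function.update_of_ne hpj.symm]
      refine and_congr_right fun _ => ⟨?_, ?_⟩
      · rintro ⟨m, hm, hmy⟩
        refine ⟨m * (κ⁻¹ + 1), by positivity, ?_⟩
        have e2 : (m * (κ⁻¹ + 1)) • (κ • X + Z j) - y = (m • (X + Z j) - y) +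
            ((m * κ) • X + (m * κ⁻¹) • Z j) := by
          ext i
          simp only [Pi.add_apply, Pi.smul_apply, Pi.sub_apply, smul_eq_mul]
          field_simp
          ring
        rw [e2]
        exact hS.cc.cl_add hmy (hS.cc.cl_add (hS.cc.cl_smul hXc (by positivity))
          (hS.cc.cl_smul hZjc (by positivity)))
      · rintro ⟨m, hm, hmy⟩
        refine ⟨m * (κ + 1), by positivity, ?_⟩
        have e2 : (m * (κ + 1)) • (X + Z j) - y = (m • (κ • X + Z j) - y) +
            (m • X + (m * κ) • Z j) := by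
          ext i
          simp only [Pi.add_apply, Pi.smul_apply, Pi.sub_apply, smul_eq_mul]
          ring
        rw [e2]
        exact hS.cc.cl_add hmy (hS.cc.cl_add (hS.cc.cl_smul hXc hm.le)
          (hS.cc.cl_smul hZjc (by positivity)))
    unfold Es
    simp only [e1, Function.update_of_ne hpj.symm]
  refine ⟨⟨fun i hi => ?_, fun v hv hvR => ?_⟩, ?_⟩
  · rw [hEs]
    rw [Finset.mem_insert, Finset.mem_singleton] at hi
    rcases hi with rfl | rfl
    · rw [Function.update_self]
      have e1 := hbox.mem i (by simp)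
      rw [Function.update_self] at e1
      have e2 := Submodule.smul_mem _ κ⁻¹ e1
      rwa [smul_smul, inv_mul_cancel₀ hκ.ne', one_smul] at e2
    · have e1 := hbox.mem i (by simp)
      rw [Function.update_of_ne hpj.symm] at e1
      rwa [Function.update_of_ne hpj.symm]
  · refine hbox.box v (by rw [← hEs]; exact hv) ?_
    rw [fS_update Z p _ (I := {p, j}ᶜ) (by simp)] at hvR ⊢
    exact hvR
  · rw [hEs]
    exact hfr

end Pool.Agent.VMX.H17
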